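import Mathlib
import Pool.Agent.H.MP_7cef9e_pr.A

set_option autoImplicit false
open MeasureTheory ProbabilityTheory Filter Topology Matrix

namespace Pool.Agent.Results.MP_7cef9e_pr.Semicircle

/-- the unitary group of size `n + 1` -/
abbrev U (n : ℕ) := unitaryGroup (Fin (n + 1)) ℂ

/-- the spherical integral for the diagonal matrix with entries `e` -/
noncomputable def I {n : ℕ} [MeasurableSpace (U n)] (m : Measure (U n)) (e : Fin (n + 1) → ℝ)
    (z : ℂ) : ℂ :=
  ∫ u, Complex.exp ((n + 1) *
    (u.1 * diagonal (Pi.single 0 z) * star u.1 * diagonal fun j => (e j : ℂ)).trace) ∂m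

theorem result :
    (∀ [∀ n, MeasurableSpace (U n)] [∀ n, BorelSpace (U n)] (m : ∀ n, Measure (U n))
      (e : ∀ n, Fin (n + 1) → ℝ) (M : ℝ),
      (∀ n, IsProbabilityMeasure (m n)) → (∀ n j, |e n j| ≤ M) →
      ∃ z : ℂ, 0 < z.im ∧ ¬ Tendsto
        (fun n : ℕ => deriv (I (m n) (e n)) z / ((n + 1) * I (m n) (e n) z)) atTop (𝓝 z)) ∧
    ∃ e : ∀ n, Fin (n + 1) → ℝ, (∀ n j, |e n j| ≤ 2) ∧ ∀ φ : ℝ → ℝ, Continuous φ →
      Tendsto (fun n : ℕ => (∑ j, φ (e n j)) / (n + 1)) atTop
        (𝓝 (∫ x in (-2:ℝ)..2, φ x * (√(4 - x ^ 2) / (2 * Real.pi)))) := by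
  constructor
  · intro _ _ m e M hm he
    let X : ∀ n, U n → ℝ := fun n u => (n + 1) * ∑ j, e n j * ‖u.1 j 0‖ ^ 2
    have hX : ∀ n u, |X n u| ≤ (n + 1) * M := fun n u => by
      rw [abs_mul, abs_of_nonneg (by positivity), ← mul_one M, ← H.MP_7cef9e_pr.col u,
        Finset.mul_sum]
      gcongr
      refine (Finset.abs_sum_le_sum_abs _ _).trans (Finset.sum_le_sum fun j _ => ?_)
      rw [abs_mul, abs_sq]
      gcongr; exact he n j
    have hI : ∀ n, I (m n) (e n) = complexMGF (X n) (m n) := fun n => by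
      ext z
      simp only [I, complexMGF, H.MP_7cef9e_pr.tr, X]
      congr; ext u; push_cast; ring_nf
    simp only [hI]
    by_contra h
    push Not at h
    refine H.MP_7cef9e_pr.no _ M (fun n z => ?_) (fun n => by simp [complexMGF]) (fun n z => ?_) h
    · have : integrableExpSet (X n) (m n) = Set.univ := Set.eq_univ_of_forall fun t =>
        integrable_exp_mul_of_mem_Icc (Continuous.aemeasurable (continuous_const.mul
          (continuous_finsetSum _ fun j _ => continuous_const.mul
            ((continuous_subtype_val.matrix_elem j 0).norm.pow 2))))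
          (.of_forall fun u => abs_le.1 (hX n u))
      exact (hasDerivAt_complexMGF (by simp [this])).differentiableAt
    · refine (norm_integral_le_of_norm_le_const (.of_forall fun u => ?_)).trans_eq
        (by rw [probReal_univ, mul_one])
      refine (Complex.norm_exp_le_exp_norm _).trans (Real.exp_le_exp.2 ?_)
      rw [norm_mul, mul_comm, Complex.norm_real]
      gcongr; exact hX n u
  · have h2 : (-2:ℝ) ≤ 2 := by norm_num
    let r : ℝ → NNReal := fun x => (√(4 - x ^ 2) / (2 * Real.pi)).toNNReal
    have r1 : ∀ x, (r x : ℝ) = √(4 - x ^ 2) / (2 * Real.pi) := fun x =>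
      Real.coe_toNNReal _ (by positivity)
    have r2 : Measurable r := by fun_prop
    let ν := ((volume.restrict (Set.Ioc (-2) 2)).withDensity fun x => r x).map
      (Set.projIcc (-2) 2 h2)
    have k : ∀ φ : ℝ → ℝ, Continuous φ → ∫ x, φ x.1 ∂ν =
        ∫ x in (-2:ℝ)..2, φ x * (√(4 - x ^ 2) / (2 * Real.pi)) := fun φ h => by
      rw [integral_map (by fun_prop) (by fun_prop), integral_withDensity_eq_integral_smul r2,
        intervalIntegral.integral_of_le h2]
      refine setIntegral_congr_fun measurableSet_Ioc fun x hx => ?_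
      simp only [Set.projIcc_of_mem h2 (Set.Ioc_subset_Icc_self hx), NNReal.smul_def, r1,
        smul_eq_mul, mul_comm]
    have : IsProbabilityMeasure ν := by
      rw [isProbabilityMeasure_iff_real]
      have a := k (fun _ => 1) continuous_const
      have b := intervalIntegral.integral_comp_div (a := -2) (b := 2) (fun x => √(1 - x ^ 2))
        two_ne_zero
      rw [integral_const, smul_eq_mul, mul_one] at a
      rw [neg_div, div_self two_ne_zero, integral_sqrt_one_sub_sq] at b
      have c : ∀ x : ℝ, 1 * (√(4 - x ^ 2) / (2 * Real.pi)) = √(1 - (x / 2) ^ 2) / Real.pi := by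
        intro x
        rw [show 4 - x ^ 2 = 2 ^ 2 * (1 - (x / 2) ^ 2) by ring, Real.sqrt_mul (by norm_num),
          Real.sqrt_sq two_pos.le]
        field_simp
      simp only [a, c, intervalIntegral.integral_div, b, smul_eq_mul]
      field_simp
    obtain ⟨e, he⟩ := H.MP_7cef9e_pr.emp ν
    refine ⟨fun n j => e j, fun n j => abs_le.2 (e j).2, fun φ h => ?_⟩
    have := (he ⟨fun x => φ x.1, by fun_prop⟩).comp (tendsto_add_atTop_nat 1)
    rw [← k φ h]
    refine this.congr fun n => ?_
    simp [Finset.sum_range]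

end Pool.Agent.Results.MP_7cef9e_pr.Semicircle
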